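import Pool.Agent.Helper73.RS.St

/-! RS MODULE WOU: windows out of an invariant mean. -/

namespace Pool.Agent.Helper48.RS

open Pool.Agent.Helper73.RS
open Filter Topology

theorem holds_WOU : Pool.Agent.Helper73.RS.StWOU := by
  intro U hU
  obtain ⟨μ, hm, hi, hpos⟩ := hU
  refine ⟨μ (ind U) / 2, by positivity, ?_⟩
  intro L
  by_contra hcon
  push Not at hcon
  have hbd : ∀ i ∈ Finset.range L, Bd (fun s : ℕ => ind U (s + i)) := fun i _ =>
    (Bd.ind U).comp (fun s => s + i)
  have h1 : μ (fun s => ∑ i ∈ Finset.range L, ind U (s + i)) =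
      ∑ i ∈ Finset.range L, μ (fun s => ind U (s + i)) := hm.sum (Finset.range L) hbd
  have h2 : ∀ i ∈ Finset.range L, μ (fun s => ind U (s + i)) = μ (ind U) := fun i _ =>
    hi.add (Bd.ind U) i
  rw [Finset.sum_congr rfl h2, Finset.sum_const, Finset.card_range, nsmul_eq_mul] at h1
  have h3 : μ (fun s => ∑ i ∈ Finset.range L, ind U (s + i)) ≤ μ (ind U) / 2 * L :=
    hm.le_of_le (Bd.sum _ hbd) (fun s => (hcon s).le)
  rcases Nat.eq_zero_or_pos L with h0 | h0
  · subst h0
    have := hcon 0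
    simp at this
  · have h4 : (0 : ℝ) < L := by exact_mod_cast h0
    nlinarith [mul_pos h4 hpos]

end Pool.Agent.Helper48.RS
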